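import Mathlib

/-!
# Infinitely many Delta-primitive squares

For `t ≡ 1 (mod 16 M)` an explicit identity (the point `3Q` on an elliptic fibration of the surface
`x - 1/x + y - 1/y = z - 1/z`) gives `k` prime to `M` such that `k ^ 2` has the Delta property.
-/

set_option autoImplicit false

namespace Pool.Agent.Results.MP_2b20db_nt.InfinitelyManySquares

/-- `D^*_n`: the differences of complementary divisors of `n`. -/
def Dstar (n : ℕ) : Set ℤ :=
  {x | ∃ a b : ℕ, a ∈ n.divisors ∧ b ∈ n.divisors ∧ a * b = n ∧ x = |(a : ℤ) - b|}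

/-- `D^+_n`: the sums of two nonzero elements of `D^*_n`. -/
def Dplus (n : ℕ) : Set ℤ :=
  {z | ∃ x y : ℤ, x ∈ Dstar n \ {0} ∧ y ∈ Dstar n \ {0} ∧ z = x + y}

/-- `n` has the Delta property: `D^*_n` meets `D^+_n`. -/
def HasDelta (n : ℕ) : Prop := (Dstar n ∩ Dplus n).Nonempty

/-- `n` is Delta-primitive. -/
def IsDeltaPrimitive (n : ℕ) : Prop :=
  HasDelta n ∧ ¬ ∃ α m : ℕ, 2 ≤ α ∧ 2 ≤ m ∧ n = α ^ 2 * m ∧ HasDelta m

lemma mem_Dstar_of {n a b : ℕ} (hn : n ≠ 0) (h : a * b = n) : |(a : ℤ) - b| ∈ Dstar n :=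
  ⟨a, b, Nat.mem_divisors.2 ⟨Dvd.intro _ h, hn⟩, Nat.mem_divisors.2 ⟨Dvd.intro_left _ h, hn⟩, h, rfl⟩

lemma not_delta_one : ¬ HasDelta 1 := by
  rintro ⟨z, -, x, y, ⟨⟨a, b, ha, hb, -, hx⟩, hx0⟩, -⟩
  apply hx0
  rw [Nat.divisors_one, Finset.mem_singleton] at ha hb
  subst ha hb
  simp [hx]

lemma not_delta_zero : ¬ HasDelta 0 := by
  rintro ⟨z, ⟨a, b, ha, -⟩, -⟩
  simp at ha

lemma hasDelta_of {n : ℕ} {x y z : ℤ} (hz : z ∈ Dstar n) (hx : x ∈ Dstar n) (hy : y ∈ Dstar n)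
    (hx0 : x ≠ 0) (hy0 : y ≠ 0) (h : z = x + y) : HasDelta n :=
  ⟨z, hz, x, y, ⟨hx, hx0⟩, ⟨hy, hy0⟩, h⟩

/-- The explicit family. Here `t` is the parameter and `16 a, 16 b, 16 c, 16 e` are the values of
the four polynomials. -/
lemma delta_of_family {t a b c e a' : ℤ} (ht : 17 ≤ t)
    (ha : 16 * a = t * (t ^ 6 + 5 * t ^ 4 + 11 * t ^ 2 - 1)) (haa : a = t * a')
    (hb : 16 * b = t ^ 6 - 11 * t ^ 4 - 5 * t ^ 2 - 1)
    (hc : 16 * c = t ^ 6 + 4 * t ^ 5 + 5 * t ^ 4 + 8 * t ^ 3 - 5 * t ^ 2 + 4 * t - 1)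
    (he : 16 * e = t ^ 6 - 4 * t ^ 5 + 5 * t ^ 4 - 8 * t ^ 3 - 5 * t ^ 2 - 4 * t - 1) :
    HasDelta ((a * b * c * e).natAbs ^ 2) := by
  have ht2 : 289 ≤ t ^ 2 := by nlinarith
  have ht4 : 289 * t ^ 2 ≤ t ^ 4 := by nlinarith
  have ht6 : 289 * t ^ 4 ≤ t ^ 6 := by nlinarith
  have ht5 : 17 * t ^ 5 ≤ t ^ 6 := by
    have : 0 ≤ t ^ 5 := by positivity
    nlinarith
  have ht3 : 17 * t ^ 3 ≤ t ^ 4 := by
    have : 0 ≤ t ^ 3 := by positivity
    nlinarith
  have ht1 : 17 * t ≤ t ^ 2 := by nlinarith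
  have ht5' : 0 < t ^ 5 := by positivity
  have ht3' : 0 < t ^ 3 := by positivity
  have hb0 : 0 < b := by nlinarith
  have he0 : 0 < e := by nlinarith
  have hce : e < c := by nlinarith
  have hc0 : 0 < c := by linarith
  have hab : b < a := by nlinarith
  have ha0 : 0 < a := by linarith
  have ha'0 : 0 < a' := by
    by_contra h
    push Not at h
    nlinarith
  -- the key identity
  have key : (a ^ 2 - b ^ 2) * c * e = (t * (a * b * c * e) - a' * b * c * e) +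
      (c ^ 2 - e ^ 2) * a * b := by
    have h16a : a' * 16 = t ^ 6 + 5 * t ^ 4 + 11 * t ^ 2 - 1 := by
      have : t * (a' * 16) = t * (t ^ 6 + 5 * t ^ 4 + 11 * t ^ 2 - 1) := by
        rw [← ha, haa]; ring
      exact mul_left_cancel₀ (by linarith : t ≠ 0) this
    have h4 : (16 : ℤ) ^ 4 * ((a ^ 2 - b ^ 2) * c * e) =
        16 ^ 4 * ((t * (a * b * c * e) - a' * b * c * e) + (c ^ 2 - e ^ 2) * a * b) := by
      have e1 : (16 : ℤ) ^ 4 * ((a ^ 2 - b ^ 2) * c * e) =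
          ((16 * a) ^ 2 - (16 * b) ^ 2) * (16 * c) * (16 * e) := by ring
      have e2 : 16 ^ 4 * ((t * (a * b * c * e) - a' * b * c * e) + (c ^ 2 - e ^ 2) * a * b) =
          (t * ((16 * a) * (16 * b) * (16 * c) * (16 * e)) -
            (a' * 16) * (16 * b) * (16 * c) * (16 * e)) +
          ((16 * c) ^ 2 - (16 * e) ^ 2) * (16 * a) * (16 * b) := by ring
      rw [e1, e2, ha, hb, hc, he, h16a]
      ring
    exact mul_left_cancel₀ (by norm_num) h4
  have hk0 : 0 < a * b * c * e := by positivity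
  have hn0 : (a * b * c * e).natAbs ^ 2 ≠ 0 := pow_ne_zero _ (Int.natAbs_ne_zero.2 hk0.ne')
  have mk : ∀ u v : ℤ, 0 < u → 0 < v → u * v = (a * b * c * e) ^ 2 → v < u →
      u - v ∈ Dstar ((a * b * c * e).natAbs ^ 2) := by
    intro u v hu hv huv hlt
    have h1 : u.natAbs * v.natAbs = (a * b * c * e).natAbs ^ 2 := by
      rw [← Int.natAbs_mul, huv, Int.natAbs_pow]
    have h2 := mem_Dstar_of hn0 h1
    rwa [Int.natAbs_of_nonneg hu.le, Int.natAbs_of_nonneg hv.le, abs_of_pos (by linarith)] at h2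
  have m1 : (a ^ 2 - b ^ 2) * c * e ∈ Dstar ((a * b * c * e).natAbs ^ 2) := by
    have h := mk (a ^ 2 * c * e) (b ^ 2 * c * e) (by positivity) (by positivity) (by ring)
      (by
        have h1 : b ^ 2 < a ^ 2 := pow_lt_pow_left₀ hab hb0.le two_ne_zero
        have hce' : 0 < c * e := by positivity
        rw [mul_assoc, mul_assoc]
        exact mul_lt_mul_of_pos_right h1 hce')
    have e1 : (a ^ 2 - b ^ 2) * c * e = a ^ 2 * c * e - b ^ 2 * c * e := by ring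
    rw [e1]; exact h
  have lt2 : a' * b * c * e < t * (a * b * c * e) := by
    have h1 : a' < t * a := by
      rw [haa]
      nlinarith
    have h2 : 0 < b * c * e := by positivity
    have h3 := mul_lt_mul_of_pos_right h1 h2
    calc a' * b * c * e = a' * (b * c * e) := by ring
      _ < t * a * (b * c * e) := h3
      _ = t * (a * b * c * e) := by ring
  have m2 : t * (a * b * c * e) - a' * b * c * e ∈ Dstar ((a * b * c * e).natAbs ^ 2) := by
    refine mk _ _ (by positivity) (by positivity) ?_ lt2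
    rw [haa]; ring
  have lt3 : e ^ 2 * a * b < c ^ 2 * a * b := by
    have h1 : e ^ 2 < c ^ 2 := pow_lt_pow_left₀ hce he0.le two_ne_zero
    have hab' : 0 < a * b := by positivity
    rw [mul_assoc, mul_assoc]
    exact mul_lt_mul_of_pos_right h1 hab'
  have m3 : (c ^ 2 - e ^ 2) * a * b ∈ Dstar ((a * b * c * e).natAbs ^ 2) := by
    have h := mk (c ^ 2 * a * b) (e ^ 2 * a * b) (by positivity) (by positivity) (by ring) lt3
    have e1 : (c ^ 2 - e ^ 2) * a * b = c ^ 2 * a * b - e ^ 2 * a * b := by ring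
    rw [e1]; exact h
  have n2 : t * (a * b * c * e) - a' * b * c * e ≠ 0 := by
    intro h
    linarith
  have n3 : (c ^ 2 - e ^ 2) * a * b ≠ 0 := by
    have e1 : (c ^ 2 - e ^ 2) * a * b = c ^ 2 * a * b - e ^ 2 * a * b := by ring
    rw [e1]
    intro h
    linarith
  exact hasDelta_of m1 m2 m3 n2 n3 key

/-- For every `M ≥ 1` there is `k` prime to `M` such that `k ^ 2` has the Delta property. -/
lemma exists_coprime (M : ℕ) (hM : 1 ≤ M) : ∃ k : ℕ, Nat.Coprime k M ∧ HasDelta (k ^ 2) := by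
  -- `t = 1 + 16 s`, `s = M`
  set s : ℤ := (M : ℤ) with hs
  have hs1 : 1 ≤ s := by rw [hs]; exact_mod_cast hM
  -- quotients
  obtain ⟨ra, hra⟩ : ∃ r : ℤ, (1 + 16 * s) ^ 6 + 5 * (1 + 16 * s) ^ 4 + 11 * (1 + 16 * s) ^ 2 - 1 =
      16 * (1 + s * r) := ⟨(1048576 * s^5 + 393216 * s^4 + 61440 * s^3 + 5120 * s^2 + 240 * s + 6) +
        5 * (4096 * s^3 + 1024 * s^2 + 96 * s + 4) + 11 * (16 * s + 2), by ring⟩
  obtain ⟨rb, hrb⟩ : ∃ r : ℤ, (1 + 16 * s) ^ 6 - 11 * (1 + 16 * s) ^ 4 - 5 * (1 + 16 * s) ^ 2 - 1 =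
      16 * (-1 + s * r) := ⟨(1048576 * s^5 + 393216 * s^4 + 61440 * s^3 + 5120 * s^2 + 240 * s + 6) -
        11 * (4096 * s^3 + 1024 * s^2 + 96 * s + 4) - 5 * (16 * s + 2), by ring⟩
  obtain ⟨rc, hrc⟩ : ∃ r : ℤ, (1 + 16 * s) ^ 6 + 4 * (1 + 16 * s) ^ 5 + 5 * (1 + 16 * s) ^ 4 +
      8 * (1 + 16 * s) ^ 3 - 5 * (1 + 16 * s) ^ 2 + 4 * (1 + 16 * s) - 1 = 16 * (1 + s * r) :=
    ⟨(1048576 * s^5 + 393216 * s^4 + 61440 * s^3 + 5120 * s^2 + 240 * s + 6) +
        4 * (65536 * s^4 + 20480 * s^3 + 2560 * s^2 + 160 * s + 5) +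
        5 * (4096 * s^3 + 1024 * s^2 + 96 * s + 4) + 8 * (256 * s^2 + 48 * s + 3)
        - 5 * (16 * s + 2) + 4, by ring⟩
  obtain ⟨re, hre⟩ : ∃ r : ℤ, (1 + 16 * s) ^ 6 - 4 * (1 + 16 * s) ^ 5 + 5 * (1 + 16 * s) ^ 4 -
      8 * (1 + 16 * s) ^ 3 - 5 * (1 + 16 * s) ^ 2 - 4 * (1 + 16 * s) - 1 = 16 * (-1 + s * r) :=
    ⟨(1048576 * s^5 + 393216 * s^4 + 61440 * s^3 + 5120 * s^2 + 240 * s + 6) -
        4 * (65536 * s^4 + 20480 * s^3 + 2560 * s^2 + 160 * s + 5) +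
        5 * (4096 * s^3 + 1024 * s^2 + 96 * s + 4) - 8 * (256 * s^2 + 48 * s + 3)
        - 5 * (16 * s + 2) - 4, by ring⟩
  have hD := delta_of_family (t := 1 + 16 * s) (a := (1 + 16 * s) * (1 + s * ra))
    (b := -1 + s * rb) (c := 1 + s * rc) (e := -1 + s * re) (a' := 1 + s * ra) (by linarith)
    (by rw [hra]; ring) rfl (by rw [hrb]) (by rw [hrc]) (by rw [hre])
  refine ⟨_, ?_, hD⟩
  have hcop : IsCoprime ((1 + 16 * s) * (1 + s * ra) * (-1 + s * rb) * (1 + s * rc) *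
      (-1 + s * re)) s := by
    refine IsCoprime.mul_left (IsCoprime.mul_left (IsCoprime.mul_left (IsCoprime.mul_left ?_ ?_) ?_)
      ?_) ?_
    · exact ⟨1, -16, by ring⟩
    · exact ⟨1, -ra, by ring⟩
    · exact ⟨-1, rb, by ring⟩
    · exact ⟨1, -rc, by ring⟩
    · exact ⟨-1, re, by ring⟩
  rw [Int.isCoprime_iff_gcd_eq_one] at hcop
  rw [Nat.Coprime, ← hcop, Int.gcd, hs, Int.natAbs_natCast]

/-- every `k` such that `k ^ 2` has the Delta property has a divisor whose square is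
Delta-primitive -/
lemma exists_primitive (k : ℕ) (hk : HasDelta (k ^ 2)) :
    ∃ l : ℕ, l ∣ k ∧ IsDeltaPrimitive (l ^ 2) := by
  induction k using Nat.strong_induction_on with
  | _ k ih =>
    by_cases hp : IsDeltaPrimitive (k ^ 2)
    · exact ⟨k, dvd_rfl, hp⟩
    · have hex : ∃ α m : ℕ, 2 ≤ α ∧ 2 ≤ m ∧ k ^ 2 = α ^ 2 * m ∧ HasDelta m := by
        by_contra hne
        exact hp ⟨hk, hne⟩
      obtain ⟨α, m, hα, hm, hkm, hdm⟩ := hex
      have hdvd : α ∣ k := by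
        rw [← Nat.pow_dvd_pow_iff (n := 2) (by norm_num), hkm]
        exact Dvd.intro _ rfl
      obtain ⟨l, rfl⟩ := hdvd
      have hml : m = l ^ 2 := by
        rw [mul_pow] at hkm
        exact (Nat.eq_of_mul_eq_mul_left (by positivity) hkm).symm
      subst hml
      have hl0 : 0 < l := by
        rcases Nat.eq_zero_or_pos l with h | h
        · subst h; simp at hm
        · exact h
      obtain ⟨l', h1, h2⟩ := ih l (by nlinarith) hdm
      exact ⟨l', h1.mul_left α, h2⟩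

/-- **There are infinitely many Delta-primitive squares**; in fact for every `M ≥ 1` there is one
which is prime to `M`. -/
theorem result :
    (∀ M : ℕ, 1 ≤ M → ∃ k : ℕ, 1 ≤ k ∧ Nat.Coprime k M ∧ IsDeltaPrimitive (k ^ 2)) ∧
    {n : ℕ | (∃ k : ℕ, 1 ≤ k ∧ n = k ^ 2) ∧ IsDeltaPrimitive n}.Infinite := by
  have h1 : ∀ M : ℕ, 1 ≤ M → ∃ k : ℕ, 1 ≤ k ∧ Nat.Coprime k M ∧ IsDeltaPrimitive (k ^ 2) := by
    intro M hM
    obtain ⟨k, hk, hD⟩ := exists_coprime M hM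
    obtain ⟨l, hl, hp⟩ := exists_primitive k hD
    refine ⟨l, ?_, Nat.Coprime.coprime_dvd_left hl hk, hp⟩
    rcases Nat.eq_zero_or_pos l with h | h
    · subst h
      exact absurd hp.1 (by simpa using not_delta_zero)
    · exact h
  refine ⟨h1, ?_⟩
  intro hfin
  obtain ⟨k, hk1, hk, hp⟩ := h1 (∏ n ∈ hfin.toFinset, (n + if n = 0 then 1 else 0))
    (Nat.one_le_iff_ne_zero.2 (Finset.prod_ne_zero_iff.2 (by intro n _; split_ifs <;> omega)))
  have hmem : k ^ 2 ∈ hfin.toFinset := by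
    rw [Set.Finite.mem_toFinset]
    exact ⟨⟨k, hk1, rfl⟩, hp⟩
  have hdvd := Finset.dvd_prod_of_mem (fun n => n + if n = 0 then 1 else 0) hmem
  have hk0 : k ^ 2 ≠ 0 := by positivity
  simp only [hk0, if_false, add_zero] at hdvd
  have hkd : k ∣ ∏ n ∈ hfin.toFinset, (n + if n = 0 then 1 else 0) :=
    (dvd_pow_self k (by norm_num)).trans hdvd
  have hone : k = 1 := Nat.Coprime.eq_one_of_dvd hk hkd
  subst hone
  exact not_delta_one (by simpa using hp.1)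

end Pool.Agent.Results.MP_2b20db_nt.InfinitelyManySquares
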